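import Pool.Agent.MWL.Stmts

/-!
# Squad MWL, row LAW: the distributive law for one letter words
-/

set_option autoImplicit false

namespace Pool.Agent.MWL.H34

open Pool.Agent.MVO Pool.Agent.Helper14_MV Pool.Agent.Helper2_MV

/-- distributive law of divisibility -/
theorem dvd_law {a b c x y : ℕ} (ha : a ≠ 0) (hb : b ≠ 0) (hc : c ≠ 0) (h1 : x ∣ Nat.lcm a c)
    (h2 : x ∣ Nat.lcm b c) (h3 : Nat.gcd a b ∣ y) (h4 : c ∣ y) : x ∣ y := by
  have hac : Nat.lcm a c ≠ 0 := Nat.lcm_ne_zero ha hc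
  have hbc : Nat.lcm b c ≠ 0 := Nat.lcm_ne_zero hb hc
  have hx : x ≠ 0 := by
    rintro rfl
    exact hac (Nat.eq_zero_of_zero_dvd h1)
  have hg : Nat.gcd a b ≠ 0 := fun h => ha (Nat.gcd_eq_zero_iff.mp h).1
  have hgc : Nat.lcm (Nat.gcd a b) c ≠ 0 := Nat.lcm_ne_zero hg hc
  have key : x ∣ Nat.lcm (Nat.gcd a b) c := by
    apply (Nat.factorization_le_iff_dvd hx hgc).1
    intro p
    have e1 := (Nat.factorization_le_iff_dvd hx hac).2 h1 p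
    have e2 := (Nat.factorization_le_iff_dvd hx hbc).2 h2 p
    rw [Nat.factorization_lcm ha hc, Finsupp.sup_apply] at e1
    rw [Nat.factorization_lcm hb hc, Finsupp.sup_apply] at e2
    rw [Nat.factorization_lcm hg hc, Nat.factorization_gcd ha hb, Finsupp.sup_apply,
      Finsupp.inf_apply]
    rcases le_total (a.factorization p) (b.factorization p) with h | h
    · rw [inf_eq_left.mpr h]
      exact e1
    · rw [inf_eq_right.mpr h]
      exact e2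
  exact key.trans (Nat.lcm_dvd h3 h4)

theorem modEq_dvd {g x c : ℕ} (h : x ≡ x + c [MOD g]) : g ∣ c := by
  have h1 : x + 0 ≡ x + c [MOD g] := by
    rw [add_zero]
    exact h
  have h2 : 0 ≡ c [MOD g] := Nat.ModEq.add_left_cancel' x h1
  exact (Nat.modEq_zero_iff_dvd.mp h2.symm)

/-- **Row LAW** -/
theorem law (h1 : DmxStmt) (h2 : FlbStmt) (h3 : JprStmt) (h4 : JfcStmt) : LawStmt := by
  intro n R S T U hR hS hT hU nR nS nT hRT hST
  obtain ⟨⟨J, hJ⟩, -, hJm⟩ := h4 R S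
  obtain ⟨-, ⟨I, hI⟩, -⟩ := h4 J T
  have hRJ : ∀ k a b, R.R k a b → J.R k a b := fun k a b h =>
    (hJ k a b).mpr (Relation.ReflTransGen.single (Or.inl h))
  have LI : LR n I := ⟨hR.pos, (hI _ _ _).mpr ⟨hRJ _ _ _ hR.per, hT.per⟩,
    (hI _ _ _).mpr ⟨hRJ _ _ _ hR.rr, hT.rr⟩⟩
  have nI : ND I := fun k a b h => nT k a b ((hI _ _ _).mp h).2
  obtain ⟨dR, mR, DR⟩ := h1 n R hR
  obtain ⟨dS, mS, DS⟩ := h1 n S hS
  obtain ⟨dT, mT, DT⟩ := h1 n T hT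
  obtain ⟨dU, mU, DU⟩ := h1 n U hU
  obtain ⟨dI, mI, DI⟩ := h1 n I LI
  have hn : n ≠ 0 := by
    have := hR.pos
    omega
  have nz : ∀ {Q : FC} {d m : ℕ}, DM n Q d m → d ≠ 0 ∧ m ≠ 0 := by
    intro Q d m hD
    have hd : d ≠ 0 := by
      intro h
      exact hn (Nat.eq_zero_of_zero_dvd (h ▸ hD.dn))
    refine ⟨hd, fun h => hd (Nat.eq_zero_of_zero_dvd (h ▸ hD.md))⟩
  -- divisors of `U`
  have dUR : dU ∣ Nat.lcm dR dT := (DU.hd _).mp (hRT _ _ _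
    ((DR.hd _).mpr (Nat.dvd_lcm_left _ _)) ((DT.hd _).mpr (Nat.dvd_lcm_right _ _)))
  have dUS : dU ∣ Nat.lcm dS dT := (DU.hd _).mp (hST _ _ _
    ((DS.hd _).mpr (Nat.dvd_lcm_left _ _)) ((DT.hd _).mpr (Nat.dvd_lcm_right _ _)))
  have mUR : mU ∣ Nat.lcm mR mT := (DU.hm _).mp (hRT _ _ _
    ((DR.hm _).mpr (Nat.dvd_lcm_left _ _)) ((DT.hm _).mpr (Nat.dvd_lcm_right _ _)))
  have mUS : mU ∣ Nat.lcm mS mT := (DU.hm _).mp (hST _ _ _
    ((DS.hm _).mpr (Nat.dvd_lcm_left _ _)) ((DT.hm _).mpr (Nat.dvd_lcm_right _ _)))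
  -- divisors of `I`
  have rI := (hI _ _ _).mp ((DI.hd dI).mpr (dvd_refl _))
  have rI' := (hI _ _ _).mp ((DI.hm mI).mpr (dvd_refl _))
  have dTI : dT ∣ dI := (DT.hd _).mp rI.2
  have mTI : mT ∣ mI := (DT.hm _).mp rI'.2
  have dG : Nat.gcd dR dS ∣ dI := by
    have h5 := (hJm n dR mR dS mS hR hS DR DS _ _ _ ((hJ _ _ _).mp rI.1)).2
    have e1 : deg 0 (sg 0 2) = 2 := rfl
    have e2 : deg 0 (sg 0 (2 + dI)) = 2 + dI := by
      unfold deg sg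
      simp
    rw [e1, e2] at h5
    exact modEq_dvd h5
  have mG : Nat.gcd mR mS ∣ mI := by
    have h5 := (hJm n dR mR dS mS hR hS DR DS _ _ _ ((hJ _ _ _).mp rI'.1)).1 0 (by omega)
    have e1 : v2 (2 + mI) 2 0 = 2 + mI := rfl
    have e2 : v2 2 (2 + mI) 0 = 2 := rfl
    rw [e1, e2] at h5
    exact modEq_dvd h5.symm
  have hd : dU ∣ dI := dvd_law (nz DR).1 (nz DS).1 (nz DT).1 dUR dUS dG dTI
  have hm : mU ∣ mI := dvd_law (nz DR).2 (nz DS).2 (nz DT).2 mUR mUS mG mTI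
  have key : FLe I U := by
    refine h2 n I U dI mI dU mU LI hU nI DI DU hd hm fun β hβ hh => ?_
    obtain ⟨hj, ht⟩ := (hI _ _ _).mp hh
    rcases h3 n R S hR hS nR nS β hβ ((hJ _ _ _).mp hj) with h6 | h6
    · exact hRT _ _ _ h6 ht
    · exact hST _ _ _ h6 ht
  intro k a b ht hj
  exact key k a b ((hI _ _ _).mpr ⟨(hJ _ _ _).mpr hj, ht⟩)

end Pool.Agent.MWL.H34
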